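import Pool.Agent.T2h36.Dens

/-!
# No flag algebra certificate of any order proves `π(K_4^3) ≤ 5/9`

A flag algebra (Cauchy–Schwarz, semidefinite) certificate of order `N` for the bound
`π(K_4^3) ≤ lam` consists of finitely many combinations `f_i` of flags with `k_i` roots and `m_i`
further vertices, `k_i + 2 m_i ≤ N`, such that

  `d(G) + ∑_i [[f_i²]](G) ≤ lam`   for every `K_4^3`-free 3-graph `G` on `N` vertices,

where `d` is the edge density and `[[f_i²]](G)` is the average of the square over `G`. We show that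
`lam > 5/9` for every such certificate, of any order: Turán's conjecture, if true, has no plain flag
algebra proof. Even more: one may add to the left side any function `φ` of the `N`-vertex samples
whose average is asymptotically nonnegative over all *vertex-transitive* 3-graphs of edge density at
least `5/9` and with a small density of copies of `K_4^3` (for instance all consequences of the
regularity of the degrees in an extremal 3-graph, and every product of `d - 5/9` with a nonnegative
expression), and still `lam > 5/9`.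

The reason is a family of vertex-transitive 3-graphs `H(K, q)` on `3K²q` vertices, obtained from
Turán's construction by local changes, with edge density at least `5/9 + (K-1)/(6K⁴)` in which a
fraction of at most `6/K⁴` of the 4-sets of vertices spans all four triples: the edge density
exceeds `5/9` by arbitrarily large multiples of the density of `K_4^3`.

The vertices are `(i, x, y, z)` with `i` modulo `3` (the part), `x, y` modulo `K` (the cell `(i,x,y)`)
and `z` modulo `q`. The edges are: the triples meeting all three parts; two vertices of different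
cells of part `i` and one vertex of part `i+1`; two vertices of the same cell of part `i` and one
vertex of part `i-1` with the same `x`; two vertices of the same cell and one vertex of another cell
of the same part.
-/

set_option autoImplicit false
open Finset
open Pool.Agent.T2h36

namespace Pool.Agent.Results.MP_f1799f_co.FlagAlgebraBarrier

/-- **No flag algebra certificate proves the bound `5/9`**, even with the help of any inequality
which is asymptotically valid for all vertex-transitive 3-graphs of edge density at least `5/9` and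
with at most the fraction `δ` of complete 4-sets. -/
theorem result (N : ℕ) (hN : 3 ≤ N) (r : ℕ) (k m : Fin r → ℕ) (hkm : ∀ i, k i + 2 * m i ≤ N)
    (f : ∀ i : Fin r, Finset (Finset (Fin (k i) ⊕ Fin (m i))) → ℝ)
    (δ : ℝ) (hδ : 0 < δ) (φ : Finset (Finset (Fin N)) → ℝ) (hφ : AsympNonneg δ φ) (lam : ℝ)
    (h : ∀ G : Finset (Finset (Fin N)), Is3 G → K43Free G →
      edgeDens G + ∑ i, avg (square (f i)) G + φ G ≤ lam) :
    5 / 9 < lam := by
  classical
  -- the certificate as a function of the samples
  set Φ : Finset (Finset (Fin N)) → ℝ := fun G => avg psi3 G + (∑ i, avg (square (f i)) G + φ G) with hΦ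
  set B : ℝ := (∑ G : Finset (Finset (Fin N)), |Φ G|) + |lam| with hB
  have hBnn : 0 ≤ B := add_nonneg (Finset.sum_nonneg fun _ _ => abs_nonneg _) (abs_nonneg _)
  have hΦB : ∀ G, Φ G ≤ lam + B := by
    intro G
    have h1 : |Φ G| ≤ ∑ G : Finset (Finset (Fin N)), |Φ G| :=
      Finset.single_le_sum (f := fun G => |Φ G|) (fun _ _ => abs_nonneg _) (mem_univ G)
    have h2 := le_abs_self (Φ G)
    have h3 := neg_abs_le lam
    rw [hB]
    linarith
  have hΦle : ∀ G : Finset (Finset (Fin N)), Is3 G → Φ G ≤ lam + B * (if K43Free G then (0 : ℝ) else 1) := by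
    intro G hG
    split_ifs with hfree
    · have := h G hG hfree
      rw [edgeDens_eq G hG (by simpa using hN)] at this
      rw [mul_zero, add_zero, hΦ]
      linarith
    · rw [mul_one]
      exact hΦB G
  -- the choice of `K`
  obtain ⟨K, hK⟩ := exists_nat_gt (36 * (B * (N : ℝ) ^ 4) + 6 / δ + 13)
  have hN4 : (0 : ℝ) ≤ B * (N : ℝ) ^ 4 := mul_nonneg hBnn (by positivity)
  have h6δ : (0 : ℝ) < 6 / δ := div_pos (by norm_num) hδ
  have hK13 : (13 : ℝ) < K := by linarith
  have hK2 : 2 ≤ K := by
    have : (2 : ℝ) ≤ K := by linarith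
    exact_mod_cast this
  have hKpos : (0 : ℝ) < K := by linarith
  have hK4 : (0 : ℝ) < (K : ℝ) ^ 4 := by positivity
  have : NeZero K := ⟨by omega⟩
  -- the size of the errors
  set ε : ℝ := 1 / (K : ℝ) ^ 4 with hε
  have hεpos : 0 < ε := by positivity
  have hr : (0 : ℝ) < (r : ℝ) + 1 := by positivity
  obtain ⟨n₀, hn₀⟩ := hφ (ε / 2) (by positivity)
  have hsq : ∀ i : Fin r, ∃ n₁ : ℕ, ∀ (V : Type) [Fintype V] [DecidableEq V] (H : Finset (Finset V)),
      n₁ ≤ Fintype.card V → -(ε / 2 / ((r : ℝ) + 1)) ≤ avg (square (f i)) H :=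
    fun i => square_nonneg (f i) _ (by positivity)
  choose n₁ hn₁ using hsq
  set q : ℕ := n₀ + (∑ i, n₁ i) + N + 2 with hq
  have hq2 : 2 ≤ q := by omega
  have : NeZero q := ⟨by omega⟩
  have hcard : q ≤ Fintype.card (Vx K q) := by
    rw [card_Vx]
    have : 1 ≤ 3 * (K * K) := by nlinarith
    nlinarith
  have hNV : N ≤ Fintype.card (Vx K q) := by omega
  have h4V : 4 ≤ Fintype.card (Vx K q) := by
    rw [card_Vx]
    nlinarith [Nat.mul_le_mul hK2 hK2]
  -- averages over the 3-graph `H(K, q)`
  have e1 : avg Φ (HG K q) = edgeDens (HG K q) + (∑ i, avg (square (f i)) (HG K q) + avg φ (HG K q)) := by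
    rw [hΦ, avg_add (fun G : Finset (Finset (Fin N)) => avg psi3 G), avg_add, avg_sum,
      edgeDens_eq (HG K q) HG_is3 (by omega)]
    congr 1
    · exact avg_avg psi3 _ (by simpa using hN) (by simpa using hNV)
    · congr 1
      refine Finset.sum_congr rfl fun i _ => ?_
      refine avg_avg (square (f i)) _ ?_ (by simpa using hNV)
      have := hkm i
      simp only [Fintype.card_sum, Fintype.card_fin]
      omega
  have e2 : avg Φ (HG K q) ≤ lam + B * ((N : ℝ) ^ 4 * (6 / (K : ℝ) ^ 4)) := by
    have a1 : avg Φ (HG K q) ≤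
        avg (fun G : Finset (Finset (Fin N)) => lam + B * (if K43Free G then (0 : ℝ) else 1)) (HG K q) :=
      avg_mono _ _ _ fun θ => hΦle _ (is3_pull θ HG_is3)
    rw [avg_add (fun _ => lam), avg_smul B, avg_const lam _ (by simpa using hNV)] at a1
    have a2 := avg_notfree (N := N) (HG K q) hNV
    have a3 := avg_psi4 (K := K) (q := q) hK2 hq2
    have a4 : (N : ℝ) ^ 4 * avg psi4 (HG K q) ≤ (N : ℝ) ^ 4 * (6 / (K : ℝ) ^ 4) :=
      mul_le_mul_of_nonneg_left a3 (by positivity)
    have a5 := mul_le_mul_of_nonneg_left (a2.trans a4) hBnn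
    linarith
  -- the lower bounds
  have e3 : 5 / 9 + ((K : ℝ) - 1) / (6 * (K : ℝ) ^ 4) ≤ edgeDens (HG K q) := edgeDens_HG hK2 hq2
  have e4 : -(ε / 2) ≤ avg φ (HG K q) := by
    refine hn₀ _ _ (by omega) HG_is3 HG_trans ?_ ?_
    · refine le_trans ?_ e3
      have : 0 ≤ ((K : ℝ) - 1) / (6 * (K : ℝ) ^ 4) := div_nonneg (by linarith) (by positivity)
      linarith
    · rw [k4Dens_eq _ h4V]
      refine (avg_psi4 hK2 hq2).trans ?_
      rw [div_le_iff₀ hK4]
      have h1 : 6 / δ ≤ (K : ℝ) := by linarith
      rw [div_le_iff₀ hδ] at h1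
      have h2 : (K : ℝ) ≤ (K : ℝ) ^ 4 := by
        have : (1 : ℝ) ≤ K := by linarith
        calc (K : ℝ) = (K : ℝ) ^ 1 := (pow_one _).symm
          _ ≤ (K : ℝ) ^ 4 := pow_le_pow_right₀ this (by norm_num)
      nlinarith
  have e5 : -(ε / 2) ≤ ∑ i, avg (square (f i)) (HG K q) := by
    have h1 : ∑ _i : Fin r, -(ε / 2 / ((r : ℝ) + 1)) ≤ ∑ i, avg (square (f i)) (HG K q) := by
      refine Finset.sum_le_sum fun i _ => hn₁ i _ _ ?_
      have : n₁ i ≤ ∑ i, n₁ i := Finset.single_le_sum (f := n₁) (fun _ _ => Nat.zero_le _) (mem_univ i)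
      omega
    refine le_trans ?_ h1
    rw [Finset.sum_const, nsmul_eq_mul, card_univ, Fintype.card_fin]
    have h2 : (r : ℝ) * -(ε / 2 / ((r : ℝ) + 1)) = -((ε / 2) * ((r : ℝ) / ((r : ℝ) + 1))) := by ring
    rw [h2, neg_le_neg_iff]
    have h3 : (r : ℝ) / ((r : ℝ) + 1) ≤ 1 := by
      rw [div_le_one hr]
      linarith
    calc (ε / 2) * ((r : ℝ) / ((r : ℝ) + 1)) ≤ (ε / 2) * 1 := mul_le_mul_of_nonneg_left h3 (by positivity)
      _ = ε / 2 := mul_one _
  -- conclusion
  have e6 : ((K : ℝ) - 1) / (6 * (K : ℝ) ^ 4) = (((K : ℝ) - 1) / 6) * ε := by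
    rw [hε]; field_simp
  have e7 : B * ((N : ℝ) ^ 4 * (6 / (K : ℝ) ^ 4)) = (6 * (B * (N : ℝ) ^ 4)) * ε := by
    rw [hε]; field_simp
  rw [e1] at e2
  rw [e6] at e3
  rw [e7] at e2
  have e8 : (6 * (B * (N : ℝ) ^ 4)) * ε + ε < (((K : ℝ) - 1) / 6) * ε := by
    have : 6 * (B * (N : ℝ) ^ 4) + 1 < ((K : ℝ) - 1) / 6 := by linarith
    nlinarith
  linarith

end Pool.Agent.Results.MP_f1799f_co.FlagAlgebraBarrier
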