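import Pool.Agent.T3h36.PP.All
import Pool.Agent.T3h36.PP.T_UGP

/-!
# The flag semidefinite programme of order `N` for `K_4^3` stays away from `5/9` by a power of `N`

A flag algebra (Cauchy–Schwarz, semidefinite) certificate of order `N` for the bound
`π(K_4^3) ≤ lam` is given by finitely many combinations `f k m j` of flags with `k` roots and `m ≥ 1`
further vertices, `k + 2 m ≤ N`, such that

  `d(G) + ∑_{k,m,j} [[(f k m j)²]](G) ≤ lam`   for every `K_4^3`-free 3-graph `G` on `N` vertices.

We show `lam ≥ 5/9 + 1 / (9 (2N)^80)` for every certificate of order `N`: the optimal value of the flag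
semidefinite programme of order `N` exceeds the conjectured density `5/9` at least by an inverse power
of `N`. So a flag algebra proof of `π(K_4^3) ≤ 5/9 + ε` must use 3-graphs on at least `c ε^(-1/80)`
vertices.

Proof. Take Turán's construction with parts `A₀, A₁, A₂`, and special sets `X ⊆ A₁`, `Y ⊆ A₀` of small
weights `x`, `y`; join the pairs inside `X` to `Y` and to `A₁ ∖ X` instead of `A₂`. The edge density
becomes `5/9 + 3 x² (y - x)`, and random samples on `N` vertices are `K_4^3`-free unless they have two
vertices in `X` and two in `Y`. The certificate, averaged over the other samples, gives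
`lam ≥ 5/9 + 3 x² (y - x) - (error)`, because the sum of the squares over all samples is nonnegative. The
error is at most `N^C x² y²`: at a pattern of special vertices the averaged flag functions are
coefficients of polynomials in `x`, `y` whose mean squares are at most `1` for all small `x`, `y`, since
the variants of the construction without the new edges, or without the edges with two vertices in
`Y`, are `K_4^3`-free, and interpolation at the nodes `δ i²` bounds such coefficients with a loss
polynomial in `N`. Take `x = y/2` and `y = N^{-C'}`. (In the files the parts are numbered so that `X` is in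
part `0` and `Y` in part `1`, and `K_κ^3` is treated for all `κ ≥ 4`.)

The proof is due to helper36; credits for the files `Pool/Agent/T3h36/PP/T_*.lean`:
helper36 (`T_GRAPH`), helper50 (`T_LAG1`), helper92 (`T_LAG`, `T_EXTR`), helper9 (`T_CROSS`), helper53
(`T_BADS`), helper96 (`T_SPLIT`), helper84 (`T_PAIR`), helper4 (`T_CLIQ`, `T_DENS`), helper34 (`T_SAMP`,
`T_EDGE`), helper69 (`T_GAP`, used in `T_UGP`), helper99 (`T_UGP`).
-/

set_option autoImplicit false
open Finset
open Pool.Agent.T2h36 Pool.Agent.T3h36

namespace Pool.Agent.Results.MP_f1799f_co.PolynomialGap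

/-- **The flag semidefinite programme of order `N` for `K_4^3` has value at least
`5/9 + 1/(9 (2N)^80)`.** -/
theorem result (N : ℕ) (hN : 3 ≤ N) (r : ℕ)
    (f : ∀ k m : ℕ, Fin r → Finset (Finset (Fin k ⊕ Fin m)) → ℝ) (lam : ℝ)
    (h : ∀ G : Finset (Finset (Fin N)), Is3 G → K43Free G → edgeDens G + sos N r f G ≤ lam) :
    5 / 9 + 1 / (9 * (2 * (N : ℝ)) ^ 80) ≤ lam := by
  have key := PP.t_UGP PP.pair_all PP.t_GRAPH (PP.t_SAMP PP.t_GRAPH) (PP.t_CLIQ PP.t_GRAPH) PP.t_DENS
    (PP.t_EDGE PP.t_GRAPH (PP.t_SAMP PP.t_GRAPH)) PP.t_BADS 4 le_rfl N hN r f lam h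
  have e1 : (1 - 4 / (((4 : ℕ) : ℝ) - 1) ^ 2 + 1 / ((((4 : ℕ) : ℝ) - 1) ^ 2 * (2 * (N : ℝ)) ^ 80)) =
      5 / 9 + 1 / (9 * (2 * (N : ℝ)) ^ 80) := by norm_num
  rwa [e1] at key

end Pool.Agent.Results.MP_f1799f_co.PolynomialGap
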