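import Pool.Agent.T2h36.SS.Num

/-!
# Very few copies of `K_4^3` above Turán's number

For complete graphs, and for the 3-graphs studied by Mubayi (such as the Fano plane), `q` edges above
the Turán number create at least `c q n^a` copies with a positive power of `n` (Erdős,
Lovász–Simonovits, Mubayi). We show that `K_4^3` behaves differently: for all `n` and `1 ≤ q ≤ n³/2000` there is a
3-graph with `n` vertices and exactly `t(n) + q` edges in which at most `3 q^(4/3)` 4-sets of vertices
span all four triples, where `t(n)` is the number of edges of Turán's construction. The number of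
copies is bounded by a function of `q` alone, and in terms of densities, the density of `K_4^3` is
`O(ε^(4/3))` for edge density `5/9 + ε`: the slope of the clique density function at Turán's
conjectured density vanishes, and every proof of Turán's conjecture has to deal with 3-graphs whose
excess of edges is much larger than the number of copies divided by `n`.

The 3-graphs: let `V_0, V_1, V_2` be the parts of Turán's construction and `S_i ⊆ T_i ⊆ V_i` with `s`
and `s + u_i` vertices. In Turán's construction, the pairs of vertices of `V_i` are completed by the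
vertices of `V_{i+1}`. Now a pair of vertices of `S_i` is completed by the vertices of `V_i \ S_i` and
of `T_{i+2}` instead. The number of edges increases by `C(s,2) (u_0 + u_1 + u_2)`, and the copies of
`K_4^3` are the pairs of `S_{i+1}` together with a pair of `T_i` not inside `S_i`.
-/

set_option autoImplicit false
open Finset
open Pool.Agent.T2h36 Pool.Agent.T2h36.SS

namespace Pool.Agent.Results.MP_f1799f_co.Supersaturation

/-- The number of edges of Turán's construction with parts of sizes `⌊n/3⌋, ⌊(n+1)/3⌋, ⌊(n+2)/3⌋`. -/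
def turanNumber (n : ℕ) : ℕ :=
  n / 3 * ((n + 1) / 3) * ((n + 2) / 3) + (n / 3).choose 2 * ((n + 1) / 3) +
    ((n + 1) / 3).choose 2 * ((n + 2) / 3) + ((n + 2) / 3).choose 2 * (n / 3)

/-- The number of 4-sets of vertices which span all four triples. -/
def copies {n : ℕ} (H : Finset (Finset (Fin n))) : ℕ :=
  (univ.filter fun W : Finset (Fin n) => W.card = 4 ∧ ∀ T ⊆ W, T.card = 3 → T ∈ H).card

theorem turan_int (n : ℕ) : 2 * ((turanNumber n : ℕ) : ℤ) =
    2 * (((n / 3 : ℕ) : ℤ) * ((n + 1) / 3 : ℕ) * ((n + 2) / 3 : ℕ)) +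
    (((n / 3 : ℕ) : ℤ) * (((n / 3 : ℕ) : ℤ) - 1) * ((n + 1) / 3 : ℕ) +
     (((n + 1) / 3 : ℕ) : ℤ) * ((((n + 1) / 3 : ℕ) : ℤ) - 1) * ((n + 2) / 3 : ℕ) +
     (((n + 2) / 3 : ℕ) : ℤ) * ((((n + 2) / 3 : ℕ) : ℤ) - 1) * (n / 3 : ℕ)) := by
  have h : ∀ m : ℕ, 2 * ((m.choose 2 : ℕ) : ℤ) = (m : ℤ) * ((m : ℤ) - 1) := by
    intro m
    have h1 : 2 * m.choose 2 = m * (m - 1) := by
      rw [Nat.choose_two_right]
      exact Nat.mul_div_cancel' (Nat.even_mul_pred_self m).two_dvd
    rcases Nat.eq_zero_or_pos m with rfl | hm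
    · simp
    · have : ((2 * m.choose 2 : ℕ) : ℤ) = ((m * (m - 1) : ℕ) : ℤ) := by rw [h1]
      push_cast [Nat.cast_sub hm] at this
      linarith
  unfold turanNumber
  push_cast
  have h1 := h (n / 3)
  have h2 := h ((n + 1) / 3)
  have h3 := h ((n + 2) / 3)
  push_cast at h1 h2 h3
  linear_combination ((((n : ℤ) + 1) / 3) : ℤ) * h1 + ((((n : ℤ) + 2) / 3) : ℤ) * h2 + ((n : ℤ) / 3) * h3

/-- **Few copies of `K_4^3` above Turán's number.** -/
theorem result :
    (∀ n : ℕ, ∃ H : Finset (Finset (Fin n)), (∀ e ∈ H, e.card = 3) ∧ H.card = turanNumber n ∧ copies H = 0) ∧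
    (∀ n q : ℕ, 1 ≤ q → 2000 * q ≤ n ^ 3 →
      ∃ H : Finset (Finset (Fin n)), (∀ e ∈ H, e.card = 3) ∧ H.card = turanNumber n + q ∧
        (copies H : ℝ) ≤ 3 * (q : ℝ) ^ (4 / 3 : ℝ)) := by
  have hcard : ∀ n : ℕ, Fintype.card (VV ![n / 3, (n + 1) / 3, (n + 2) / 3]) = Fintype.card (Fin n) := by
    intro n
    rw [card_VV, Fintype.card_fin]
    simp only [Matrix.cons_val_zero, Matrix.cons_val_one, Matrix.cons_val]
    omega
  refine ⟨?_, ?_⟩
  · intro n
    set v : Fin 3 → ℕ := ![n / 3, (n + 1) / 3, (n + 2) / 3] with hv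
    obtain ⟨h1, h2⟩ := model v (fun _ => 0) (fun _ => 0) (fun _ => Nat.zero_le _) (fun _ => Nat.zero_le _)
      (fun _ => le_refl _)
    obtain ⟨H, h3, hc, hk⟩ := transfer (Fintype.equivOfCardEq (hcard n)) _ (HF_is3 (fun x : VV v => x.1)
      (seg v fun _ => 0) (seg v fun _ => 0))
    refine ⟨H, h3, ?_, ?_⟩
    · have e := turan_int n
      have : 2 * (H.card : ℤ) = 2 * ((turanNumber n : ℕ) : ℤ) := by
        rw [hc, h1, e]
        simp only [Fin.sum_univ_three, hv]
        simp
      omega
    · show (k4set H).card = 0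
      rw [hk]
      have : 4 * ((k4set (HF (fun x : VV v => x.1) (seg v fun _ => 0) (seg v fun _ => 0))).card : ℤ) = 0 := by
        rw [h2]
        simp
      omega
  · intro n q hq hn
    obtain ⟨s, hs2, hs, hcase⟩ := choose_s q
    -- the size of the parts
    have h6s : 2 * s ≤ n / 3 := by
      rcases hcase with rfl | ⟨h3, hlt⟩
      · have : 12 ≤ n := by
          by_contra hcon
          push Not at hcon
          have : n ^ 3 ≤ 11 ^ 3 := Nat.pow_le_pow_left (by omega) 3
          omega
        omega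
      · have h6 : 6 * s + 2 ≤ n := by
          by_contra hcon
          push Not at hcon
          have h7 : n ^ 3 ≤ (6 * s + 1) ^ 3 := Nat.pow_le_pow_left (by omega) 3
          obtain ⟨x, rfl⟩ : ∃ x, s = x + 3 := ⟨s - 3, by omega⟩
          have e1 : x + 3 - 1 = x + 2 := by omega
          have e2 : x + 3 - 2 = x + 1 := by omega
          rw [e1, e2] at hlt
          have h8 : 1000 * (3 * (x + 2) ^ 2 * (x + 1) + 1) ≤ (6 * (x + 3) + 1) ^ 3 := by
            calc 1000 * (3 * (x + 2) ^ 2 * (x + 1) + 1) ≤ 1000 * (2 * q) := Nat.mul_le_mul_left _ hlt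
              _ = 2000 * q := by ring
              _ ≤ _ := hn.trans h7
          have h9 : (6 * (x + 3) + 1) ^ 3 < 1000 * (3 * (x + 2) ^ 2 * (x + 1) + 1) := by
            have : (6 * (x + 3) + 1) ^ 3 + 6141 ≤ 1000 * (3 * (x + 2) ^ 2 * (x + 1) + 1) := by
              nlinarith [Nat.zero_le (x ^ 2), Nat.zero_le (x ^ 3), Nat.zero_le x]
            omega
          omega
        omega
    -- the number `U` of additional vertices
    set c : ℕ := s.choose 2 with hc
    have h2c : 2 * c = s * (s - 1) := by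
      rw [hc, Nat.choose_two_right]
      exact Nat.mul_div_cancel' (Nat.even_mul_pred_self s).two_dvd
    have hc1 : 1 ≤ c := Nat.choose_pos hs2
    have hqc : q ≤ 3 * s * c := by
      have : 2 * q ≤ 2 * (3 * s * c) := by
        calc 2 * q ≤ 3 * s ^ 2 * (s - 1) := hs
          _ = 3 * s * (s * (s - 1)) := by ring
          _ = 3 * s * (2 * c) := by rw [h2c]
          _ = 2 * (3 * s * c) := by ring
      omega
    set U : ℕ := (q + c - 1) / c with hU
    have hU1 : q ≤ c * U := by
      have h := Nat.div_add_mod (q + c - 1) c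
      have h' := Nat.mod_lt (q + c - 1) (show 0 < c by omega)
      rw [← hU] at h
      omega
    have hU2 : c * U ≤ q + c - 1 := by
      rw [hU]
      exact Nat.mul_div_le _ _
    have hU3 : U ≤ 3 * s := by
      by_contra hcon
      push Not at hcon
      have : c * (3 * s + 1) ≤ c * U := Nat.mul_le_mul_left c hcon
      have e : c * (3 * s + 1) = 3 * s * c + c := by ring
      omega
    set u : Fin 3 → ℕ := ![U / 3, (U + 1) / 3, (U + 2) / 3] with hu
    have hus : ∀ i, u i ≤ s := by
      intro i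
      fin_cases i <;> simp [hu] <;> omega
    set v : Fin 3 → ℕ := ![n / 3, (n + 1) / 3, (n + 2) / 3] with hv
    have hvs : ∀ i, 2 * s ≤ v i := by
      intro i
      fin_cases i <;> simp [hv] <;> omega
    obtain ⟨h1, h2⟩ := model v (fun _ => s) (fun i => s + u i)
      (fun i => by have := hvs i; omega) (fun i => by have := hvs i; have := hus i; omega) (fun _ => by omega)
    obtain ⟨H, h3, hcH, hk⟩ := transfer (Fintype.equivOfCardEq (hcard n)) _ (HF_is3 (fun x : VV v => x.1)
      (seg v fun _ => s) (seg v fun i => s + u i))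
    have hsum : u 0 + u 1 + u 2 = U := by
      simp only [hu, Matrix.cons_val_zero, Matrix.cons_val_one, Matrix.cons_val]
      omega
    have hcZ : 2 * (c : ℤ) = (s : ℤ) * ((s : ℤ) - 1) := by
      have : ((2 * c : ℕ) : ℤ) = ((s * (s - 1) : ℕ) : ℤ) := by rw [h2c]
      push_cast [Nat.cast_sub (show 1 ≤ s by omega)] at this
      linarith
    have hHcard : (H.card : ℤ) = (turanNumber n : ℕ) + c * U := by
      have e := turan_int n
      have hsumZ : (u 0 : ℤ) + u 1 + u 2 = U := by exact_mod_cast hsum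
      have : 2 * (H.card : ℤ) = 2 * ((turanNumber n : ℕ) : ℤ) + 2 * c * U := by
        rw [hcH, h1, e, hcZ, ← hsumZ]
        have i1 : (2 : Fin 3) + 1 = 0 := rfl
        have i2 : (1 : Fin 3) + 2 = 0 := rfl
        have i3 : (2 : Fin 3) + 2 = 1 := rfl
        have i4 : (1 : Fin 3) + 1 = 2 := rfl
        have i5 : (0 : Fin 3) + 1 = 1 := rfl
        have i6 : (0 : Fin 3) + 2 = 2 := rfl
        simp only [Fin.sum_univ_three, i1, i2, i3, i4, i5, i6]
        have v0 : (v 0 : ℤ) = (n / 3 : ℕ) := rfl
        have v1 : (v 1 : ℤ) = ((n + 1) / 3 : ℕ) := rfl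
        have v2 : (v 2 : ℤ) = ((n + 2) / 3 : ℕ) := rfl
        rw [v0, v1, v2]
        push_cast
        ring
      linarith
    have hHge : turanNumber n + q ≤ H.card := by
      have : ((turanNumber n + q : ℕ) : ℤ) ≤ (H.card : ℤ) := by
        rw [hHcard]
        push_cast
        have : (q : ℤ) ≤ c * U := by exact_mod_cast hU1
        linarith
      exact_mod_cast this
    -- the number of copies
    have hkZ : 4 * ((k4set H).card : ℤ) ≤ 2 * (c * U) * (3 * s - 1) := by
      rw [hk, h2]
      have hb : ∀ i, ((((s + u i : ℕ) : ℤ)) * (((s + u i : ℕ) : ℤ) - 1) - s * (s - 1)) * ((s : ℤ) * (s - 1)) ≤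
          (u i : ℤ) * (3 * s - 1) * (s * (s - 1)) := by
        intro i
        refine mul_le_mul_of_nonneg_right ?_ ?_
        · have h5 : (u i : ℤ) ≤ s := by exact_mod_cast hus i
          have h6 : (0 : ℤ) ≤ u i := Int.natCast_nonneg _
          push_cast
          nlinarith
        · have : (2 : ℤ) ≤ s := by exact_mod_cast hs2
          nlinarith
      calc ∑ i, ((((s + u i : ℕ) : ℤ)) * (((s + u i : ℕ) : ℤ) - 1) - s * (s - 1)) * ((s : ℤ) * (s - 1))
          ≤ ∑ i, (u i : ℤ) * (3 * s - 1) * (s * (s - 1)) := Finset.sum_le_sum fun i _ => hb i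
        _ = 2 * (c * U) * (3 * s - 1) := by
            rw [Fin.sum_univ_three]
            have hsumZ : (u 0 : ℤ) + u 1 + u 2 = U := by exact_mod_cast hsum
            rw [← hcZ, ← hsumZ]
            ring
    have hcUZ : (c : ℤ) * U ≤ q + c - 1 := by
      have : ((c * U : ℕ) : ℤ) ≤ ((q + c - 1 : ℕ) : ℤ) := by exact_mod_cast hU2
      push_cast [Nat.cast_sub (show 1 ≤ q + c by omega)] at this
      exact this
    have hk3 : ((k4set H).card : ℤ) ^ 3 ≤ 27 * (q : ℤ) ^ 4 := by
      have hs2Z : (2 : ℤ) ≤ s := by exact_mod_cast hs2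
      have h5 : 4 * ((k4set H).card : ℤ) ≤ (2 * q + s * (s - 1) - 2) * (3 * s - 1) := by
        have : 2 * ((c : ℤ) * U) * (3 * s - 1) ≤ 2 * (q + c - 1) * (3 * s - 1) := by
          refine mul_le_mul_of_nonneg_right ?_ (by linarith)
          linarith
        calc 4 * ((k4set H).card : ℤ) ≤ 2 * ((c : ℤ) * U) * (3 * s - 1) := hkZ
          _ ≤ 2 * (q + c - 1) * (3 * s - 1) := this
          _ = (2 * q + 2 * c - 2) * (3 * s - 1) := by ring
          _ = (2 * q + s * (s - 1) - 2) * (3 * s - 1) := by rw [hcZ]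
      rcases hcase with rfl | ⟨h3s, hlt⟩
      · refine num_small q _ (by exact_mod_cast hq) (Int.natCast_nonneg _) ?_
        norm_num at h5
        linarith
      · refine num_big s q _ (by exact_mod_cast h3s) ?_ (Int.natCast_nonneg _) h5
        have : ((3 * (s - 1) ^ 2 * (s - 2) : ℕ) : ℤ) < ((2 * q : ℕ) : ℤ) := by exact_mod_cast hlt
        push_cast [Nat.cast_sub (show 1 ≤ s by omega), Nat.cast_sub (show 2 ≤ s by omega)] at this
        exact this
    -- remove superfluous edges
    obtain ⟨H', hH', hH'c⟩ := Finset.exists_subset_card_eq hHge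
    refine ⟨H', fun e he => h3 e (hH' he), hH'c, ?_⟩
    have hle : copies H' ≤ (k4set H).card := Finset.card_le_card (k4set_mono hH')
    have h7 : ((copies H' : ℝ)) ^ 3 ≤ 27 * (q : ℝ) ^ 4 := by
      have h8 : (((k4set H).card : ℝ)) ^ 3 ≤ 27 * (q : ℝ) ^ 4 := by exact_mod_cast hk3
      have h9 : (copies H' : ℝ) ≤ ((k4set H).card : ℝ) := by exact_mod_cast hle
      exact (pow_le_pow_left₀ (Nat.cast_nonneg _) h9 3).trans h8
    have h10 : (3 * (q : ℝ) ^ (4 / 3 : ℝ)) ^ 3 = 27 * (q : ℝ) ^ 4 := by
      rw [mul_pow, ← Real.rpow_natCast ((q : ℝ) ^ (4 / 3 : ℝ)) 3, ← Real.rpow_mul (Nat.cast_nonneg _)]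
      norm_num
    refine le_of_pow_le_pow_left₀ (n := 3) (by norm_num) (by positivity) ?_
    rw [h10]
    exact h7

end Pool.Agent.Results.MP_f1799f_co.Supersaturation
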