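import Pool.Agent.T2h36.TriFin

/-!
# The Fon-der-Flaass bound for tripartite orientations has no flag algebra proof

All known extremal examples for Turán's (3,4)-problem are 3-graphs whose vertex set is a union of
three independent sets, and come from orientations `Γ` of complete tripartite graphs without induced
oriented 4-cycle by the Fon-der-Flaass construction: the edges of `fdf Γ` are the triples in which
every vertex is joined by an arc to one of the other two and no vertex dominates both others. For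
such `Γ` the 3-graph `fdf Γ` is `K_4^3`-free, and its edge density is at most `5/9` in the limit; this
special case of the Fon-der-Flaass conjecture is a theorem (`MP_f1799f_co.FonDerFlaass`).

We show that this true inequality has no flag algebra proof of any order, even in the richest
language: the flags may be three-coloured oriented graphs, and one may use in addition any
inequality which is asymptotically valid for all orientations of complete tripartite graphs with
edge density at least `5/9` and few induced oriented 4-cycles. In particular the semidefinite method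
with three-coloured flags cannot prove Turán's conjecture even for 3-graphs which are unions of three
independent sets.

The reason is a family of orientations of complete tripartite graphs with part sizes
`(1 + 1/K) n/3, (1 + 1/K) n/3, (1 - 2/K) n/3`, with edge density of `fdf` at least
`5/9 + 1/(18 K³)`, in which only a fraction of `1/K⁴` of the quadruples is an induced oriented
4-cycle.
-/

set_option autoImplicit false
open Finset
open Pool.Agent.T2h36

namespace Pool.Agent.Results.MP_f1799f_co.TripartiteBarrier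

/-- **No flag algebra certificate proves the bound `5/9` for the Fon-der-Flaass 3-graphs of
orientations of complete tripartite graphs without induced oriented 4-cycle.** -/
theorem result (N : ℕ) (hN : 3 ≤ N) (r : ℕ) (k m : Fin r → ℕ) (hkm : ∀ i, k i + 2 * m i ≤ N)
    (f : ∀ i : Fin r, ColDigraph (Fin (k i) ⊕ Fin (m i)) → ℝ)
    (δ : ℝ) (hδ : 0 < δ) (φ : ColDigraph (Fin N) → ℝ) (hφ : AsympNonnegC δ φ) (lam : ℝ)
    (h : ∀ S : ColDigraph (Fin N), IsTripartite S → NoInducedC4 S →
      edgeDens (fdf S) + ∑ i, avgC (squareC (f i)) S + φ S ≤ lam) :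
    5 / 9 < lam := by
  classical
  -- the certificate as a function of the samples
  set Φ : ColDigraph (Fin N) → ℝ :=
    fun G => avg psi3 (fdf G) + (∑ i, avgC (squareC (f i)) G + φ G) with hΦ
  set B : ℝ := (∑ G : ColDigraph (Fin N), |Φ G|) + |lam| with hB
  have hBnn : 0 ≤ B := add_nonneg (Finset.sum_nonneg fun _ _ => abs_nonneg _) (abs_nonneg _)
  have hΦB : ∀ G, Φ G ≤ lam + B := by
    intro G
    have h1 : |Φ G| ≤ ∑ G : ColDigraph (Fin N), |Φ G| :=
      Finset.single_le_sum (f := fun G => |Φ G|) (fun _ _ => abs_nonneg _) (mem_univ G)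
    have h2 := le_abs_self (Φ G)
    have h3 := neg_abs_le lam
    rw [hB]
    linarith
  have hΦle : ∀ G : ColDigraph (Fin N), IsTripartite G →
      Φ G ≤ lam + B * (if NoInducedC4 G then (0 : ℝ) else 1) := by
    intro G hG
    split_ifs with hfree
    · have := h G hG hfree
      rw [edgeDens_eq (fdf G) (fdf_is3 G) (by simpa using hN)] at this
      rw [mul_zero, add_zero, hΦ]
      linarith
    · rw [mul_one]
      exact hΦB G
  -- the choice of the parameter
  obtain ⟨l, hl⟩ := exists_nat_gt (36 * (B * (N : ℝ) ^ 4) + 1 / δ + 20)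
  have hN4 : (0 : ℝ) ≤ B * (N : ℝ) ^ 4 := mul_nonneg hBnn (by positivity)
  have h6δ : (0 : ℝ) < 1 / δ := div_pos (by norm_num) hδ
  have hl16 : 16 ≤ l := by
    have : (16 : ℝ) ≤ l := by linarith
    exact_mod_cast this
  set K : ℝ := 2 * ((l : ℝ) + 1) with hK
  have hKl : (l : ℝ) ≤ K := by
    have : (0 : ℝ) ≤ (l : ℝ) := Nat.cast_nonneg l
    rw [hK]; linarith
  have hKpos : (0 : ℝ) < K := by linarith
  have hK4 : (0 : ℝ) < K ^ 4 := by positivity
  -- the size of the errors
  set ε : ℝ := 1 / (36 * K ^ 3) with hε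
  have hεpos : 0 < ε := by positivity
  have hr : (0 : ℝ) < (r : ℝ) + 1 := by positivity
  obtain ⟨n₀, hn₀⟩ := hφ (ε / 4) (by positivity)
  have hsq : ∀ i : Fin r, ∃ n₁ : ℕ, ∀ (V : Type) [Fintype V] [DecidableEq V] (S : ColDigraph V),
      n₁ ≤ Fintype.card V → -(ε / 4 / ((r : ℝ) + 1)) ≤ avgC (squareC (f i)) S :=
    fun i => squareC_nonneg (f i) _ (by positivity)
  choose n₁ hn₁ using hsq
  set q : ℕ := n₀ + (∑ i, n₁ i) + N + 36 * (l + 1) with hq
  have hq1 : 1 ≤ q := by omega
  have hqr : (1 : ℝ) ≤ q := by exact_mod_cast hq1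
  have hcard : q ≤ Fintype.card (Tri.VT l q) := by
    have h1 : (q : ℝ) ≤ (Fintype.card (Tri.VT l q) : ℝ) := by
      rw [Tri.card_V, ← hK]
      have h2 : (1 : ℝ) ≤ 3 * K ^ 2 := by
        have : (1 : ℝ) ≤ K ^ 2 := one_le_pow₀ (by linarith)
        linarith
      nlinarith
    exact_mod_cast h1
  have hNV : N ≤ Fintype.card (Tri.VT l q) := by omega
  have h12V : 12 ≤ Fintype.card (Tri.VT l q) := by omega
  -- averages
  have e1 : avgC Φ (Tri.GT l q) = edgeDens (fdf (Tri.GT l q)) +
      (∑ i, avgC (squareC (f i)) (Tri.GT l q) + avgC φ (Tri.GT l q)) := by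
    rw [hΦ, avgC_add (fun G : ColDigraph (Fin N) => avg psi3 (fdf G)), avgC_add, avgC_sum,
      edgeDens_eq (fdf (Tri.GT l q)) (fdf_is3 _) (by omega)]
    congr 1
    · rw [avgC_pull (fun G : Finset (Finset (Fin N)) => avg psi3 G)]
      exact avg_avg psi3 _ (by simpa using hN) (by simpa using hNV)
    · congr 1
      refine Finset.sum_congr rfl fun i _ => ?_
      refine avgC_avgC (squareC (f i)) _ ?_ (by simpa using hNV)
      have := hkm i
      simp only [Fintype.card_sum, Fintype.card_fin]
      omega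
  have hc4 : c4Dens (Tri.GT l q) ≤ 1 / K ^ 4 := Tri.c4Dens_GT hq1
  have e2 : avgC Φ (Tri.GT l q) ≤ lam + B * ((N : ℝ) ^ 4 * (2 * (1 / K ^ 4))) := by
    have a1 : avgC Φ (Tri.GT l q) ≤
        avgC (fun G : ColDigraph (Fin N) => lam + B * (if NoInducedC4 G then (0 : ℝ) else 1)) (Tri.GT l q) :=
      avgC_mono _ _ _ fun θ => hΦle _ (pullC_tri θ (Tri.GT_tri l q))
    rw [avgC_add (fun _ => lam), avgC_smul B, avgC_const lam _ (by simpa using hNV)] at a1
    have a2 := Tri.avgC_notfree (N := N) (Tri.GT l q) (Tri.GT_tri l q) hNV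
    have a3 := Tri.avgC_psiC (Tri.GT l q) h12V
    have a4 : (N : ℝ) ^ 4 * avgC Tri.psiC (Tri.GT l q) ≤ (N : ℝ) ^ 4 * (2 * (1 / K ^ 4)) :=
      mul_le_mul_of_nonneg_left (a3.trans (by linarith)) (by positivity)
    have a5 := mul_le_mul_of_nonneg_left (a2.trans a4) hBnn
    linarith
  -- the lower bounds
  have e3 : 5 / 9 + 1 / (18 * K ^ 3) ≤ edgeDens (fdf (Tri.GT l q)) := Tri.dens_GT hl16 (by omega)
  have e4 : -(ε / 4) ≤ avgC φ (Tri.GT l q) := by
    refine hn₀ _ _ (by omega) (Tri.GT_tri l q) ?_ ?_
    · refine le_trans ?_ e3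
      have : 0 ≤ 1 / (18 * K ^ 3) := by positivity
      linarith
    · refine hc4.trans ?_
      rw [div_le_iff₀ hK4]
      have h1 : 1 / δ ≤ K := by linarith
      rw [div_le_iff₀ hδ] at h1
      have h2 : K ≤ K ^ 4 := by
        have : (1 : ℝ) ≤ K := by linarith
        calc K = K ^ 1 := (pow_one _).symm
          _ ≤ K ^ 4 := pow_le_pow_right₀ this (by norm_num)
      nlinarith
  have e5 : -(ε / 4) ≤ ∑ i, avgC (squareC (f i)) (Tri.GT l q) := by
    have h1 : ∑ _i : Fin r, -(ε / 4 / ((r : ℝ) + 1)) ≤ ∑ i, avgC (squareC (f i)) (Tri.GT l q) := by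
      refine Finset.sum_le_sum fun i _ => hn₁ i _ _ ?_
      have : n₁ i ≤ ∑ i, n₁ i := Finset.single_le_sum (f := n₁) (fun _ _ => Nat.zero_le _) (mem_univ i)
      omega
    refine le_trans ?_ h1
    rw [Finset.sum_const, nsmul_eq_mul, card_univ, Fintype.card_fin]
    have h2 : (r : ℝ) * -(ε / 4 / ((r : ℝ) + 1)) = -((ε / 4) * ((r : ℝ) / ((r : ℝ) + 1))) := by ring
    rw [h2, neg_le_neg_iff]
    have h3 : (r : ℝ) / ((r : ℝ) + 1) ≤ 1 := by
      rw [div_le_one hr]
      linarith
    calc (ε / 4) * ((r : ℝ) / ((r : ℝ) + 1)) ≤ (ε / 4) * 1 := mul_le_mul_of_nonneg_left h3 (by positivity)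
      _ = ε / 4 := mul_one _
  -- conclusion
  have e6 : 1 / (18 * K ^ 3) = 2 * ε := by
    rw [hε]; field_simp; norm_num
  have e7 : B * ((N : ℝ) ^ 4 * (2 * (1 / K ^ 4))) = (72 * (B * (N : ℝ) ^ 4) / K) * ε := by
    rw [hε]; field_simp; ring
  rw [e1] at e2
  rw [e6] at e3
  rw [e7] at e2
  have e8 : 72 * (B * (N : ℝ) ^ 4) / K < 1 := by
    rw [div_lt_one hKpos, hK]
    linarith
  have e9 : (72 * (B * (N : ℝ) ^ 4) / K) * ε < 1 * ε := mul_lt_mul_of_pos_right e8 hεpos
  linarith

end Pool.Agent.Results.MP_f1799f_co.TripartiteBarrier
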